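import Pool.Agent.Q173.CF.Main

/-!
The fan `F` built from tilted combs is planar, for every choice of the comb `C_L`, of the sets
`K_n` and of the homeomorphisms `φ_n` for which `F` is a fan; more generally, whenever no point of
the Cantor set carries two nondegenerate hooks.
-/

namespace Pool.Agent.Results.MP_4f06c8_gt.PlanarFan

open Q173Fan Q173CF

/-- For all data `D` (comb, sets `K_n`, homeomorphisms `φ_n`): if `F` is a fan then `F` embeds in
the plane; it also embeds in the plane as soon as no point of `K` carries two nondegenerate
hooks. -/
theorem result (D : Data) :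
    (∀ t : D.F, IsFanWithTop D.F t → IsPlanar D.F) ∧ (D.SingleHooks → IsPlanar D.F) :=
  ⟨fun _ h => planar_of_singleHooks D (singleHooks_of_fan D h), planar_of_singleHooks D⟩

end Pool.Agent.Results.MP_4f06c8_gt.PlanarFan
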